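import Pool.Agent.Work.MP_559b1d_an.Bd.B02
open MeasureTheory Filter Topology Set Complex
open scoped ComplexConjugate ENNReal

namespace Pool.Agent.MP559

lemma fourier_lip (n : ℤ) : ∃ K : NNReal, LipschitzWith K
    (fun s : AddCircle (1:ℝ) => (fourier n s : ℂ)) := by
  refine ⟨⟨|2 * Real.pi * n|, abs_nonneg _⟩, LipschitzWith.of_dist_le_mul fun s t => ?_⟩
  rw [dist_eq_norm, dist_eq_norm]
  obtain ⟨h, hh, hn⟩ := exists_rep (s - t)
  have h1 : (fourier n s : ℂ) - fourier n t = fourier n t * ((fourier n (s - t) : ℂ) - 1) := by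
    rw [mul_sub, ← fourier_add_arg, mul_one, add_sub_cancel]
  rw [h1, norm_mul]
  have h2 : ‖(fourier n t : ℂ)‖ = 1 := by
    rw [fourier_apply]; exact Circle.norm_coe _
  rw [h2, one_mul, ← hh, fourier_coe_apply]
  have h3 : (2 * Real.pi * I * n * h / (1:ℝ) : ℂ) = I * ((2 * Real.pi * n * h : ℝ) : ℂ) := by
    push_cast; ring
  rw [h3]
  refine (Real.norm_exp_I_mul_ofReal_sub_one_le).trans ?_
  show ‖2 * Real.pi * n * h‖ ≤ |2 * Real.pi * n| * ‖(h : AddCircle (1:ℝ))‖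
  rw [hh, ← hn, Real.norm_eq_abs, abs_mul]

lemma cauchy_unique {γ : AddCircle (1:ℝ) → ℂ}
    {S S' : Lp ℂ 2 (volume : Measure (AddCircle (1:ℝ))) →L[ℂ]
      Lp ℂ 2 (volume : Measure (AddCircle (1:ℝ)))}
    (h : CauchyOld γ S) (h' : CauchyOld γ S') : S = S' := by
  have hE : ∀ n, S (E n) = S' (E n) := by
    intro n
    obtain ⟨K, hK⟩ := fourier_lip n
    apply Lp.ext
    filter_upwards [h _ K hK (E n) (E_coe n), h' _ K hK (E n) (E_coe n)] with s e1 e2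
    exact tendsto_nhds_unique e1 e2
  have h1 : Submodule.span ℂ (range E) ≤ LinearMap.ker (S - S').toLinearMap := by
    rw [Submodule.span_le]
    rintro _ ⟨n, rfl⟩
    show (S - S') (E n) = 0
    rw [sub_apply, hE, sub_self]
  have h2 : (Submodule.span ℂ (range E)).topologicalClosure ≤
      LinearMap.ker (S - S').toLinearMap :=
    Submodule.topologicalClosure_minimal _ h1 (S - S').isClosed_ker
  rw [E_span, top_le_iff] at h2
  ext1 f
  have h3 : f ∈ LinearMap.ker (S - S').toLinearMap := by rw [h2]; trivial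
  have h4 : (S - S') f = 0 := h3
  rw [sub_apply] at h4
  exact sub_eq_zero.mp h4

lemma const_pc (c : ℂ) : IsPC (fun _ : AddCircle (1:ℝ) => c) where
  bdd := ⟨‖c‖, fun _ => le_rfl⟩
  right := fun _ => ⟨c, tendsto_const_nhds⟩
  left := fun _ => ⟨c, tendsto_const_nhds⟩

lemma cond3_const {ε : ℝ} (hε : 0 < ε) :
    Condition3 (fun _ : AddCircle (1:ℝ) => ((1 + ε : ℝ) : ℂ)) (fun _ => 1) := by
  intro t cr cl dr dl h1 h2 h3 h4 μ hμ ν hν
  have e1 : cr = ((2 + ε : ℝ) : ℂ) := by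
    refine tendsto_nhds_unique h1 ?_
    have : ((2 + ε : ℝ) : ℂ) = ((1 + ε : ℝ) : ℂ) + 1 := by push_cast; ring
    rw [this]; exact tendsto_const_nhds
  have e2 : cl = ((2 + ε : ℝ) : ℂ) := by
    refine tendsto_nhds_unique h2 ?_
    have : ((2 + ε : ℝ) : ℂ) = ((1 + ε : ℝ) : ℂ) + 1 := by push_cast; ring
    rw [this]; exact tendsto_const_nhds
  have e3 : dr = ((ε : ℝ) : ℂ) := by
    refine tendsto_nhds_unique h3 ?_
    have : ((ε : ℝ) : ℂ) = ((1 + ε : ℝ) : ℂ) - 1 := by push_cast; ring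
    rw [this]; exact tendsto_const_nhds
  have e4 : dl = ((ε : ℝ) : ℂ) := by
    refine tendsto_nhds_unique h4 ?_
    have : ((ε : ℝ) : ℂ) = ((1 + ε : ℝ) : ℂ) - 1 := by push_cast; ring
    rw [this]; exact tendsto_const_nhds
  rw [e1, e2, e3, e4]
  have e5 : ((2 + ε : ℝ) : ℂ) * ((ε : ℝ) : ℂ) * μ + ((2 + ε : ℝ) : ℂ) * ((ε : ℝ) : ℂ) * (1 - μ)
      = (((2 + ε) * ε : ℝ) : ℂ) := by push_cast; ring
  rw [e5]
  have e6 : (((2 + ε) * ε : ℝ) : ℂ) * ν + ((ε : ℝ) : ℂ) * ((ε : ℝ) : ℂ) * (1 - ν) =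
      (((2 + ε) * ε * ν + ε * ε * (1 - ν) : ℝ) : ℂ) := by push_cast; ring
  rw [e6, Complex.ofReal_ne_zero]
  have h5 : 0 ≤ ν := hν.1
  have h6 : 0 ≤ 1 - ν := by linarith [hν.2]
  have h7 : (2 + ε) * ε * ν + ε * ε * (1 - ν) = ε * (ε + 2 * ν) := by ring
  rw [h7]
  positivity

end Pool.Agent.MP559
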