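import Mathlib

/-!
Definitions for MP_559b1d_an: curves with corners, the Cauchy singular integral operator,
piecewise continuous coefficients, condition (3), theta-strong ellipticity.

A simple closed curve of length `ℓ` is given by its arc-length parametrisation
`γ : AddCircle ℓ → ℂ`; `L²(Γ)` with arc-length measure is
`Lp ℂ 2 (volume : Measure (AddCircle ℓ))`.
-/

open MeasureTheory Filter Topology Set

namespace Pool.Agent.MP559

/-- `v = g(t + 0)`: the limit of `g` at `t` from the right, i.e. along the orientation. -/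
def RightLim {ℓ : ℝ} (g : AddCircle ℓ → ℂ) (t : AddCircle ℓ) (v : ℂ) : Prop :=
  Tendsto (fun h : ℝ => g (t + (h : AddCircle ℓ))) (𝓝[>] 0) (𝓝 v)

/-- `v = g(t - 0)`: the limit of `g` at `t` from the left. -/
def LeftLim {ℓ : ℝ} (g : AddCircle ℓ → ℂ) (t : AddCircle ℓ) (v : ℂ) : Prop :=
  Tendsto (fun h : ℝ => g (t + (h : AddCircle ℓ))) (𝓝[<] 0) (𝓝 v)

/-- `g ∈ PC(Γ)`: bounded, with one-sided limits everywhere. -/
structure IsPC {ℓ : ℝ} (g : AddCircle ℓ → ℂ) : Prop where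
  bdd : ∃ C : ℝ, ∀ t, ‖g t‖ ≤ C
  right : ∀ t, ∃ v, RightLim g t v
  left : ∀ t, ∃ v, LeftLim g t v

/-- The derivative of `γ` with respect to arc length (the unit tangent off the corners). -/
noncomputable def tangent {ℓ : ℝ} (γ : AddCircle ℓ → ℂ) (t : AddCircle ℓ) : ℂ :=
  deriv (fun h : ℝ => γ (t + (h : AddCircle ℓ))) 0

/-- `γ` is the arc-length parametrisation of a positively oriented simple closed curve of length
`ℓ` with corners: it consists of finitely many Lyapunov arcs (unit tangent Hölder continuous up to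
the ends), has no cusps, and winds once around some point. -/
structure IsCornerCurve {ℓ : ℝ} [Fact (0 < ℓ)] (γ : AddCircle ℓ → ℂ) : Prop where
  cont : Continuous γ
  inj : Function.Injective γ
  arcs : ∃ (n : ℕ) (x : ℕ → ℝ) (τ : ℕ → ℝ → ℂ) (α K : ℝ), x n = x 0 + ℓ ∧ 0 < α ∧
    ∀ i < n, x i < x (i + 1) ∧ ∀ u ∈ Icc (x i) (x (i + 1)), ‖τ i u‖ = 1 ∧
      HasDerivWithinAt (fun v : ℝ => γ (v : AddCircle ℓ)) (τ i u) (Icc (x i) (x (i + 1))) u ∧
      ∀ v ∈ Icc (x i) (x (i + 1)), ‖τ i u - τ i v‖ ≤ K * |u - v| ^ α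
  noCusp : ∀ (t : AddCircle ℓ) (u v : ℂ),
    HasDerivWithinAt (fun h : ℝ => γ (t + (h : AddCircle ℓ))) u (Ici 0) 0 →
    HasDerivWithinAt (fun h : ℝ => γ (t + (h : AddCircle ℓ))) v (Iic 0) 0 → u + v ≠ 0
  positive : ∃ z : ℂ, z ∉ range γ ∧
    ∫ s : AddCircle ℓ, tangent γ s / (γ s - z) = 2 * Real.pi * Complex.I

/-- `t` is a genuine corner: the one-sided tangents exist and differ. -/
def IsCorner {ℓ : ℝ} (γ : AddCircle ℓ → ℂ) (t : AddCircle ℓ) : Prop :=
  ∃ u v : ℂ, HasDerivWithinAt (fun h : ℝ => γ (t + (h : AddCircle ℓ))) u (Ici 0) 0 ∧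
    HasDerivWithinAt (fun h : ℝ => γ (t + (h : AddCircle ℓ))) v (Iic 0) 0 ∧ u ≠ v

/-- The truncated Cauchy integral
`(1/πi) ∫_{τ ∈ Γ, |τ - t| > ε} f(τ) / (τ - t) dτ` at `t = γ s`. -/
noncomputable def truncCauchy {ℓ : ℝ} [Fact (0 < ℓ)] (γ f : AddCircle ℓ → ℂ) (s : AddCircle ℓ)
    (ε : ℝ) : ℂ :=
  (1 / (Real.pi * Complex.I)) *
    ∫ σ in {σ : AddCircle ℓ | ε < ‖γ σ - γ s‖}, f σ / (γ σ - γ s) * tangent γ σ

/-- A bounded linear operator on `L²(α)`. -/
structure L2Op (α : Type*) [MeasureSpace α] where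
  /-- the operator -/
  op : Lp ℂ 2 (volume : Measure α) →L[ℂ] Lp ℂ 2 (volume : Measure α)

/-- `B x = y`. -/
def Sends {H : Type*} [NormedAddCommGroup H] [NormedSpace ℂ H] (B : H →L[ℂ] H) (x y : H) : Prop :=
  B x = y

/-- The bounded operator `S` on `L²` maps (the class of) `f` to (the class of) `g`. -/
def Acts {α : Type*} [MeasureSpace α] (S : L2Op α) (f g : α → ℂ) : Prop :=
  ∃ (hf : MemLp f 2 (volume : Measure α)) (hg : MemLp g 2 (volume : Measure α)),
    Sends S.op (hf.toLp f) (hg.toLp g)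

/-- `S` is the Cauchy singular integral operator `S_Γ` on `L²(Γ)`: a bounded operator which on
Lipschitz functions is given by the principal value integral a.e. (Lipschitz functions being
dense, this determines `S`.) -/
def IsCauchySingular {ℓ : ℝ} [Fact (0 < ℓ)] (γ : AddCircle ℓ → ℂ) (S : L2Op (AddCircle ℓ)) :
    Prop :=
  ∀ (f : AddCircle ℓ → ℂ) (K : NNReal), LipschitzWith K f → ∃ g : AddCircle ℓ → ℂ, Acts S f g ∧
    ∀ᵐ s : AddCircle ℓ, Tendsto (fun ε : ℝ => truncCauchy γ f s ε) (𝓝[>] 0) (𝓝 (g s))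

/-- `A = a I + b S`. -/
def IsLeftOp {α : Type*} [MeasureSpace α] (a b : α → ℂ) (S A : L2Op α) : Prop :=
  ∀ f g : α → ℂ, Acts S f g → Acts A f (fun s => a s * f s + b s * g s)

/-- `A = a I + S b I`. -/
def IsRightOp {α : Type*} [MeasureSpace α] (a b : α → ℂ) (S A : L2Op α) : Prop :=
  ∀ f g : α → ℂ, MemLp f 2 (volume : Measure α) → Acts S (fun s => b s * f s) g →
    Acts A f (fun s => a s * f s + g s)

/-- Condition (3) for the coefficients `a, b`. -/
def Condition3 {ℓ : ℝ} (a b : AddCircle ℓ → ℂ) : Prop :=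
  ∀ (t : AddCircle ℓ) (cr cl dr dl : ℂ),
    RightLim (fun s => a s + b s) t cr → LeftLim (fun s => a s + b s) t cl →
    RightLim (fun s => a s - b s) t dr → LeftLim (fun s => a s - b s) t dl →
    ∀ μ ∈ Icc (0 : ℝ) 1, ∀ ν ∈ Icc (0 : ℝ) 1,
      (cr * dl * μ + cl * dr * (1 - μ)) * ν + dr * dl * (1 - ν) ≠ 0

/-- Strong ellipticity: `Re B = (B + B*)/2 = D + T` with `D` positive definite and `T` compact.
Positive definiteness is only required in the weak sense `Re ⟨Df, f⟩ > 0` for `f ≠ 0`. -/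
def StronglyElliptic {H : Type*} [NormedAddCommGroup H] [InnerProductSpace ℂ H] [CompleteSpace H]
    (B : H →L[ℂ] H) : Prop :=
  ∃ D T : H →L[ℂ] H, (1 / 2 : ℂ) • (B + ContinuousLinearMap.adjoint B) = D + T ∧
    (∀ f : H, f ≠ 0 → 0 < (inner ℂ (D f) f).re) ∧ IsCompactOperator T

/-- `θ A` is (a bounded operator and) strongly elliptic. -/
def MulStronglyElliptic {α : Type*} [MeasureSpace α] (θ : α → ℂ) (A : L2Op α) : Prop :=
  ∃ B : L2Op α, (∀ f g : α → ℂ, Acts A f g → Acts B f (fun s => θ s * g s)) ∧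
    StronglyElliptic B.op

/-- `A` is `θ`-strongly elliptic: `θ A` is strongly elliptic for some `θ ∈ PC(Γ)` with
`inf |θ| > 0`. -/
def ThetaStronglyElliptic {ℓ : ℝ} [Fact (0 < ℓ)] (A : L2Op (AddCircle ℓ)) : Prop :=
  ∃ θ : AddCircle ℓ → ℂ, IsPC θ ∧ (∃ m : ℝ, 0 < m ∧ ∀ t, m ≤ ‖θ t‖) ∧ MulStronglyElliptic θ A

end Pool.Agent.MP559
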