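import Pool.Agent.Work.MP_559b1d_an.Bd.B01

/-!
The concrete curve: the boundary of the triangle with vertices `0, 1/3, i/4` (perimeter `1`),
parametrised by arc length.
-/

open MeasureTheory Filter Topology Set Complex

namespace Pool.Agent.MP559

lemma ae_ne_c {ℓ : ℝ} [Fact (0 < ℓ)] (c : AddCircle ℓ) : ∀ᵐ s : AddCircle ℓ, s ≠ c := by
  have h : volume ({c} : Set (AddCircle ℓ)) = 0 := by
    rw [← Metric.closedBall_zero, AddCircle.volume_closedBall]
    have : (0:ℝ) ≤ ℓ := (Fact.out : 0 < ℓ).le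
    simp [this]
  exact measure_eq_zero_iff_ae_notMem.mp h 

/-- direction of the second side -/
noncomputable def d2 : ℂ := (-4 + 3 * I) / 5

noncomputable def g0 (x : ℝ) : ℂ :=
  if x ≤ 1/3 then (x : ℂ) else if x ≤ 3/4 then 1/3 + (x - 1/3) * d2 else I * (1 - x)

/-- the curve -/
noncomputable def gam : AddCircle (1:ℝ) → ℂ := AddCircle.liftIco 1 0 g0

lemma d2_re : d2.re = -4/5 := by
  unfold d2
  have : ((-4 + 3 * I) / 5 : ℂ) = ((-4/5 : ℝ) : ℂ) + ((3/5 : ℝ) : ℂ) * I := by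
    push_cast; ring
  rw [this]; simp
lemma d2_im : d2.im = 3/5 := by
  unfold d2
  have : ((-4 + 3 * I) / 5 : ℂ) = ((-4/5 : ℝ) : ℂ) + ((3/5 : ℝ) : ℂ) * I := by
    push_cast; ring
  rw [this]; simp

lemma d2_norm : ‖d2‖ = 1 := by
  have h : ‖d2‖ ^ 2 = 1 := by
    rw [← Complex.normSq_eq_norm_sq, Complex.normSq_apply, d2_re, d2_im]; norm_num
  have h0 := norm_nonneg d2
  nlinarith

lemma side23 : (1/3 + ((3/4:ℝ) - 1/3) * d2 : ℂ) = I * (1 - (3/4 : ℝ)) := by
  apply Complex.ext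
  · simp [d2_re, d2_im]; norm_num
  · simp [d2_re, d2_im]; norm_num

lemma g0_one {x : ℝ} (h : x ≤ 1/3) : g0 x = x := by unfold g0; rw [if_pos h]

lemma g0_two {x : ℝ} (h : 1/3 ≤ x) (h' : x ≤ 3/4) : g0 x = 1/3 + (x - 1/3) * d2 := by
  rcases eq_or_lt_of_le h with h1 | h1
  · rw [← h1]; simp [g0]
  · have : ¬ x ≤ 1/3 := not_le.mpr h1
    simp only [g0, this, h', if_true, if_false]

lemma g0_three {x : ℝ} (h : 3/4 ≤ x) : g0 x = I * (1 - x) := by
  rcases eq_or_lt_of_le h with h1 | h1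
  · rw [← h1, g0_two (by norm_num) le_rfl, side23]
  · have h2 : ¬ x ≤ 1/3 := by intro h; linarith
    have h3 : ¬ x ≤ 3/4 := not_le.mpr h1
    simp only [g0, h2, h3, if_false]

lemma g0_cont : Continuous g0 := by
  unfold g0
  apply Continuous.if_le
  · fun_prop
  · apply Continuous.if_le
    · fun_prop
    · fun_prop
    · fun_prop
    · fun_prop
    · intro x hx
      rw [hx]; exact side23
  · fun_prop
  · fun_prop
  · intro x hx
    rw [hx]
    norm_num

lemma gam_cont : Continuous gam := by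
  unfold gam
  apply AddCircle.liftIco_zero_continuous
  · rw [g0_one (by norm_num), g0_three (by norm_num)]; simp
  · exact g0_cont.continuousOn

lemma gam_coe {x : ℝ} (hx : x ∈ Icc (0:ℝ) 1) : gam (x : AddCircle (1:ℝ)) = g0 x := by
  rcases eq_or_lt_of_le hx.2 with h | h
  · have h1 : (x : AddCircle (1:ℝ)) = ((0:ℝ) : AddCircle (1:ℝ)) := by
      rw [h]; simp
    rw [h1]
    unfold gam
    rw [AddCircle.liftIco_zero_coe_apply (by constructor <;> norm_num), h,
      g0_one (by norm_num), g0_three (by norm_num)]; simp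
  · unfold gam
    exact AddCircle.liftIco_zero_coe_apply ⟨hx.1, h⟩

lemma gam_one {x : ℝ} (h0 : 0 ≤ x) (h : x ≤ 1/3) : gam (x : AddCircle (1:ℝ)) = x := by
  rw [gam_coe ⟨h0, by linarith⟩, g0_one h]

lemma gam_two {x : ℝ} (h : 1/3 ≤ x) (h' : x ≤ 3/4) :
    gam (x : AddCircle (1:ℝ)) = 1/3 + (x - 1/3) * d2 := by
  rw [gam_coe ⟨by linarith, by linarith⟩, g0_two h h']

lemma gam_three {x : ℝ} (h : 3/4 ≤ x) (h' : x ≤ 1) :
    gam (x : AddCircle (1:ℝ)) = I * (1 - x) := by
  rw [gam_coe ⟨by linarith, by linarith⟩, g0_three h]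

lemma coe_add_one (x : ℝ) : ((x + 1 : ℝ) : AddCircle (1:ℝ)) = x := by simp

lemma gam_neg {x : ℝ} (h : -(1/4) ≤ x) (h' : x ≤ 0) :
    gam (x : AddCircle (1:ℝ)) = - I * x := by
  rw [← coe_add_one, gam_three (by linarith) (by linarith)]; push_cast; ring

lemma gam_inj : Function.Injective gam := by
  intro s t hst
  obtain ⟨x, hx, rfl⟩ := AddCircle.eq_coe_Ico s
  obtain ⟨y, hy, rfl⟩ := AddCircle.eq_coe_Ico t
  have h1 : x = y := by
    rcases le_total x (1/3) with hx1 | hx1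
    · rw [gam_one hx.1 hx1] at hst
      rcases le_total y (1/3) with hy1 | hy1
      · rw [gam_one hy.1 hy1] at hst
        exact_mod_cast hst
      · rcases le_total y (3/4) with hy2 | hy2
        · rw [gam_two hy1 hy2] at hst
          have hr := congrArg Complex.re hst
          have hi := congrArg Complex.im hst
          simp [d2_re, d2_im] at hr hi
          nlinarith
        · rw [gam_three hy2 hy.2.le] at hst
          have hr := congrArg Complex.re hst
          have hi := congrArg Complex.im hst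
          simp at hr hi
          have := hy.2
          linarith
    · rcases le_total x (3/4) with hx2 | hx2
      · rw [gam_two hx1 hx2] at hst
        rcases le_total y (1/3) with hy1 | hy1
        · rw [gam_one hy.1 hy1] at hst
          have hr := congrArg Complex.re hst
          have hi := congrArg Complex.im hst
          simp [d2_re, d2_im] at hr hi
          nlinarith
        · rcases le_total y (3/4) with hy2 | hy2
          · rw [gam_two hy1 hy2] at hst
            have hi := congrArg Complex.im hst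
            simp [d2_re, d2_im] at hi
            exact hi
          · rw [gam_three hy2 hy.2.le] at hst
            have hr := congrArg Complex.re hst
            have hi := congrArg Complex.im hst
            simp [d2_re, d2_im] at hr hi
            nlinarith
      · rw [gam_three hx2 hx.2.le] at hst
        rcases le_total y (1/3) with hy1 | hy1
        · rw [gam_one hy.1 hy1] at hst
          have hr := congrArg Complex.re hst
          have hi := congrArg Complex.im hst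
          simp at hr hi
          have := hx.2
          linarith
        · rcases le_total y (3/4) with hy2 | hy2
          · rw [gam_two hy1 hy2] at hst
            have hr := congrArg Complex.re hst
            have hi := congrArg Complex.im hst
            simp [d2_re, d2_im] at hr hi
            nlinarith
          · rw [gam_three hy2 hy.2.le] at hst
            have hi := congrArg Complex.im hst
            simp at hi
            linarith
  rw [h1]

/-- affine on `[a,b]` -/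
def AffOn (γ : AddCircle (1:ℝ) → ℂ) (a b : ℝ) (c τ : ℂ) : Prop :=
  ∀ v ∈ Icc a b, γ (v : AddCircle (1:ℝ)) = c + v * τ

lemma hasDerivAt_aff (c τ : ℂ) (u : ℝ) : HasDerivAt (fun v : ℝ => c + (v:ℂ) * τ) τ u := by
  have h1 : HasDerivAt (fun v : ℝ => (v:ℂ)) 1 u := Complex.ofRealCLM.hasDerivAt
  simpa using (h1.mul_const τ).const_add c

lemma AffOn.within {γ : AddCircle (1:ℝ) → ℂ} {a b : ℝ} {c τ : ℂ} (h : AffOn γ a b c τ) {u : ℝ}
    (hu : u ∈ Icc a b) : HasDerivWithinAt (fun v : ℝ => γ (v : AddCircle (1:ℝ))) τ (Icc a b) u :=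
  (hasDerivAt_aff c τ u).hasDerivWithinAt.congr h (h u hu)

lemma AffOn.right {γ : AddCircle (1:ℝ) → ℂ} {a b : ℝ} {c τ : ℂ} (h : AffOn γ a b c τ) {u : ℝ}
    (hu : u ∈ Ico a b) :
    HasDerivWithinAt (fun v : ℝ => γ ((u : AddCircle (1:ℝ)) + (v : AddCircle (1:ℝ)))) τ
      (Ici 0) 0 := by
  have h1 := (hasDerivAt_aff (c + u * τ) τ 0).hasDerivWithinAt (s := Ici 0)
  refine h1.congr_of_eventuallyEq ?_ ?_
  · have : Iio (b - u) ∈ 𝓝 (0:ℝ) := Iio_mem_nhds (by linarith [hu.2])
    filter_upwards [mem_nhdsWithin_of_mem_nhds this, self_mem_nhdsWithin] with v hv hv0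
    have hv1 : v < b - u := hv
    have hv2 : 0 ≤ v := hv0
    rw [← AddCircle.coe_add, h (u + v) ⟨by linarith [hu.1], by linarith⟩]
    push_cast; ring
  · rw [← AddCircle.coe_add, h (u + 0) ⟨by linarith [hu.1], by linarith [hu.2]⟩]
    push_cast; ring

lemma AffOn.left {γ : AddCircle (1:ℝ) → ℂ} {a b : ℝ} {c τ : ℂ} (h : AffOn γ a b c τ) {u : ℝ}
    (hu : u ∈ Ioc a b) :
    HasDerivWithinAt (fun v : ℝ => γ ((u : AddCircle (1:ℝ)) + (v : AddCircle (1:ℝ)))) τ
      (Iic 0) 0 := by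
  have h1 := (hasDerivAt_aff (c + u * τ) τ 0).hasDerivWithinAt (s := Iic 0)
  refine h1.congr_of_eventuallyEq ?_ ?_
  · have : Ioi (a - u) ∈ 𝓝 (0:ℝ) := Ioi_mem_nhds (by linarith [hu.1])
    filter_upwards [mem_nhdsWithin_of_mem_nhds this, self_mem_nhdsWithin] with v hv hv0
    have hv1 : a - u < v := hv
    have hv2 : v ≤ 0 := hv0
    rw [← AddCircle.coe_add, h (u + v) ⟨by linarith, by linarith [hu.2]⟩]
    push_cast; ring
  · rw [← AddCircle.coe_add, h (u + 0) ⟨by linarith [hu.1], by linarith [hu.2]⟩]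
    push_cast; ring

lemma AffOn.tangent {γ : AddCircle (1:ℝ) → ℂ} {a b : ℝ} {c τ : ℂ} (h : AffOn γ a b c τ) {u : ℝ}
    (hu : u ∈ Ioo a b) : tangent γ (u : AddCircle (1:ℝ)) = τ := by
  have h1 := (h.right ⟨hu.1.le, hu.2⟩).union (h.left ⟨hu.1, hu.2.le⟩)
  rw [Ici_union_Iic] at h1
  exact (h1.hasDerivAt Filter.univ_mem).deriv

lemma aff1 : AffOn gam 0 (1/3) 0 1 := by
  intro v hv; rw [gam_one hv.1 hv.2]; ring

lemma aff2 : AffOn gam (1/3) (3/4) (1/3 - 1/3 * d2) d2 := by
  intro v hv; rw [gam_two hv.1 hv.2]; ring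

lemma aff3 : AffOn gam (3/4) 1 I (-I) := by
  intro v hv; rw [gam_three hv.1 hv.2]; ring

lemma tangent_one {x : ℝ} (hx : x ∈ Ioo (0:ℝ) (1/3)) : tangent gam (x : AddCircle (1:ℝ)) = 1 :=
  aff1.tangent hx
lemma tangent_two {x : ℝ} (hx : x ∈ Ioo (1/3:ℝ) (3/4)) :
    tangent gam (x : AddCircle (1:ℝ)) = d2 := aff2.tangent hx
lemma tangent_three {x : ℝ} (hx : x ∈ Ioo (3/4:ℝ) 1) :
    tangent gam (x : AddCircle (1:ℝ)) = -I := aff3.tangent hx

lemma gam_arcs : ∃ (n : ℕ) (x : ℕ → ℝ) (τ : ℕ → ℝ → ℂ) (α K : ℝ), x n = x 0 + 1 ∧ 0 < α ∧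
    ∀ i < n, x i < x (i + 1) ∧ ∀ u ∈ Icc (x i) (x (i + 1)), ‖τ i u‖ = 1 ∧
      HasDerivWithinAt (fun v : ℝ => gam (v : AddCircle (1:ℝ))) (τ i u)
        (Icc (x i) (x (i + 1))) u ∧
      ∀ v ∈ Icc (x i) (x (i + 1)), ‖τ i u - τ i v‖ ≤ K * |u - v| ^ α := by
  refine ⟨3, fun i => if i = 0 then 0 else if i = 1 then 1/3 else if i = 2 then 3/4 else 1,
    fun i _ => if i = 0 then 1 else if i = 1 then d2 else -I, 1, 0, by norm_num, by norm_num, ?_⟩
  intro i hi
  interval_cases i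
  · refine ⟨by norm_num, ?_⟩
    intro u hu
    simp only [if_true, zero_add] at hu ⊢
    norm_num at hu ⊢
    have := aff1.within (u := u) (by norm_num; exact hu)
    norm_num at this
    exact this
  · refine ⟨by norm_num, ?_⟩
    intro u hu
    norm_num at hu ⊢
    refine ⟨d2_norm, ?_⟩
    have := aff2.within (u := u) (by norm_num; exact hu)
    norm_num at this
    exact this
  · refine ⟨by norm_num, ?_⟩
    intro u hu
    norm_num at hu ⊢
    have := aff3.within (u := u) (by norm_num; exact hu)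
    norm_num at this
    exact this

lemma gam_noCusp : ∀ (t : AddCircle (1:ℝ)) (u v : ℂ),
    HasDerivWithinAt (fun h : ℝ => gam (t + (h : AddCircle (1:ℝ)))) u (Ici 0) 0 →
    HasDerivWithinAt (fun h : ℝ => gam (t + (h : AddCircle (1:ℝ)))) v (Iic 0) 0 → u + v ≠ 0 := by
  intro t u v hu hv
  obtain ⟨x, hx, rfl⟩ := AddCircle.eq_coe_Ico t
  have h1 : (u = 1 ∧ x < 1/3) ∨ (u = d2 ∧ 1/3 ≤ x ∧ x < 3/4) ∨ (u = - I ∧ 3/4 ≤ x) := by
    rcases lt_or_ge x (1/3) with h | h
    · left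
      exact ⟨uniqueDiffWithinAt_Ici 0 |>.eq_deriv _ hu (aff1.right ⟨hx.1, h⟩), h⟩
    · rcases lt_or_ge x (3/4) with h' | h'
      · right; left
        exact ⟨uniqueDiffWithinAt_Ici 0 |>.eq_deriv _ hu (aff2.right ⟨h, h'⟩), h, h'⟩
      · right; right
        exact ⟨uniqueDiffWithinAt_Ici 0 |>.eq_deriv _ hu (aff3.right ⟨h', hx.2⟩), h'⟩
  have h2 : (v = 1 ∧ 0 < x ∧ x ≤ 1/3) ∨ (v = d2 ∧ 1/3 < x ∧ x ≤ 3/4) ∨
      (v = - I ∧ (x = 0 ∨ 3/4 < x)) := by
    rcases eq_or_lt_of_le hx.1 with h0 | h0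
    · right; right
      have h3 : (x : AddCircle (1:ℝ)) = ((1:ℝ) : AddCircle (1:ℝ)) := by
        rw [← h0, AddCircle.coe_period, AddCircle.coe_zero]
      rw [h3] at hv
      exact ⟨uniqueDiffWithinAt_Iic 0 |>.eq_deriv _ hv (aff3.left ⟨by norm_num, le_rfl⟩),
        Or.inl h0.symm⟩
    rcases le_or_gt x (1/3) with h | h
    · left
      exact ⟨uniqueDiffWithinAt_Iic 0 |>.eq_deriv _ hv (aff1.left ⟨h0, h⟩), h0, h⟩
    · rcases le_or_gt x (3/4) with h' | h'
      · right; left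
        exact ⟨uniqueDiffWithinAt_Iic 0 |>.eq_deriv _ hv (aff2.left ⟨h, h'⟩), h, h'⟩
      · right; right
        exact ⟨uniqueDiffWithinAt_Iic 0 |>.eq_deriv _ hv (aff3.left ⟨h', hx.2.le⟩), Or.inr h'⟩
  intro hs
  have hr := congrArg Complex.re hs
  have hi := congrArg Complex.im hs
  rcases h1 with ⟨hu1, hu2⟩ | ⟨hu1, hu2, hu3⟩ | ⟨hu1, hu2⟩ <;>
  rcases h2 with ⟨hv1, hv2, hv3⟩ | ⟨hv1, hv2, hv3⟩ | ⟨hv1, hv2⟩ <;>
  simp [hu1, hv1, d2_re, d2_im] at hr hi

end Pool.Agent.MP559
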