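import Pool.Agent.Work.MP_559b1d_an.Bd.B03
open MeasureTheory Filter Topology Set Complex
open scoped ComplexConjugate ENNReal

namespace Pool.Agent.MP559

lemma lim_norm_ge {θ : AddCircle (1:ℝ) → ℂ} {m : ℝ} (hθ : ∀ t, m ≤ ‖θ t‖) {v : ℂ}
    {t : AddCircle (1:ℝ)} (h : RightLim θ t v) : m ≤ ‖v‖ :=
  ge_of_tendsto' h.norm fun _ => hθ _

/-- numerical-range consequence of strong ellipticity -/
lemma strong_re {H : Type*} [NormedAddCommGroup H] [InnerProductSpace ℂ H] [CompleteSpace H]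
    {B : H →L[ℂ] H} (hB : StronglyElliptic B) : ∃ T : H →L[ℂ] H, IsCompactOperator T ∧
      ∀ f : H, (inner ℂ (T f) f).re ≤ (inner ℂ f (B f)).re := by
  obtain ⟨D, T, hDT, hD, hT⟩ := hB
  refine ⟨T, hT, fun f => ?_⟩
  have h1 : inner ℂ (((1 / 2 : ℂ) • (B + ContinuousLinearMap.adjoint B)) f) f =
      inner ℂ (D f) f + inner ℂ (T f) f := by
    rw [hDT, add_apply, inner_add_left]
  have h2 : (inner ℂ (((1 / 2 : ℂ) • (B + ContinuousLinearMap.adjoint B)) f) f).re =
      (inner ℂ f (B f)).re := by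
    rw [smul_apply, add_apply, inner_smul_left,
      inner_add_left, ContinuousLinearMap.adjoint_inner_left]
    have h3 : (inner ℂ (B f) f).re = (inner ℂ f (B f)).re := by
      rw [← inner_conj_symm, Complex.conj_re]
    simp [h3]
    ring
  have h4 : 0 ≤ (inner ℂ (D f) f).re := by
    rcases eq_or_ne f 0 with h | h
    · rw [h]; simp
    · exact (hD f h).le
  rw [← h2, h1, Complex.add_re]
  linarith

theorem main_neg {ε : ℝ} (hε : 0 < ε) (hε' : ε ≤ 1/10000000)
    {S A : Lp ℂ 2 (volume : Measure (AddCircle (1:ℝ))) →L[ℂ]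
      Lp ℂ 2 (volume : Measure (AddCircle (1:ℝ)))}
    (hS : CauchyOld gam S) (hA : ∀ f, A f = ((1 + ε : ℝ) : ℂ) • f + S f) :
    ¬ ThetaOld A := by
  rintro ⟨θ, hPC, ⟨m, hm, hθm⟩, B, hB, hSE⟩
  obtain ⟨C, hC⟩ := hPC.bdd
  obtain ⟨θp, hp⟩ := hPC.right 0
  obtain ⟨θm, hlm⟩ := hPC.left 0
  have hp0 : 0 < ‖θp‖ := lt_of_lt_of_le hm (lim_norm_ge hθm hp)
  -- action of A
  have hA_out : ∀ z : ℂ, z.im < 0 → z.re < 0 → A (PZ z) = ((2 + ε : ℝ) : ℂ) • PZ z := by
    intro z h1 h2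
    rw [hA, S_PZ_outside hS h1 h2]
    have : ((2 + ε : ℝ) : ℂ) = ((1 + ε : ℝ) : ℂ) + 1 := by push_cast; ring
    rw [this, add_smul, one_smul]
  have hA_in : ∀ z : ℂ, 0 < z.im → 0 < z.re → 3 * z.re + 4 * z.im < 1 →
      A (PZ z) = ((ε : ℝ) : ℂ) • PZ z := by
    intro z h1 h2 h3
    rw [hA, S_PZ_inside hS h1 h2 h3]
    have : ((ε : ℝ) : ℂ) = ((1 + ε : ℝ) : ℂ) - 1 := by push_cast; ring
    rw [this, sub_smul, one_smul, sub_eq_add_neg]
  -- θ is a.e. strongly measurable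
  have hθm' : AEStronglyMeasurable θ volume := by
    set z : ℂ := -1 - I with hz
    have hz1 : z.im < 0 := by rw [hz]; simp
    have hz2 : z.re < 0 := by rw [hz]; simp
    have h1 := hB (PZ z)
    rw [hA_out z hz1 hz2] at h1
    have hnm := outside_not_mem hz1
    have h2 : AEStronglyMeasurable (fun s => (B (PZ z)) s * (((2 + ε : ℝ) : ℂ) * pz z s)⁻¹)
        volume := by
      refine (Lp.aestronglyMeasurable _).mul ?_
      apply AEMeasurable.aestronglyMeasurable
      exact ((pz_cont hnm).measurable.const_mul _).inv.aemeasurable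
    refine h2.congr ?_
    filter_upwards [h1, Lp.coeFn_smul ((2 + ε : ℝ) : ℂ) (PZ z), PZ_coe hnm] with s e1 e2 e3
    rw [e1, e2, Pi.smul_apply, e3, smul_eq_mul]
    have h3 : gam s - z ≠ 0 := fun h0 => hnm ⟨s, sub_eq_zero.mp h0⟩
    have h4 : ((2 + ε : ℝ) : ℂ) ≠ 0 := by
      rw [Ne, Complex.ofReal_eq_zero]; linarith
    unfold pz
    field_simp
  -- the sequence
  set u : ℕ → ℝ := fun n => 1 / ((n : ℝ) + 100) with hu
  have hu1 : ∀ n, 0 < u n ∧ u n < 1/40 := by
    intro n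
    simp only [hu]
    have : (0:ℝ) ≤ n := Nat.cast_nonneg n
    constructor
    · positivity
    · apply one_div_lt_one_div_of_lt (by norm_num); linarith
  have hulim : Tendsto u atTop (𝓝[>] 0) := by
    rw [tendsto_nhdsWithin_iff]
    refine ⟨?_, Eventually.of_forall fun n => (hu1 n).1⟩
    have h1 : Tendsto (fun n : ℕ => (n : ℝ) + 100) atTop atTop :=
      tendsto_atTop_add_const_right _ _ tendsto_natCast_atTop_atTop
    have h2 := h1.inv_tendsto_atTop
    refine h2.congr fun n => ?_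
    simp [hu]
  -- action of B on the test vectors
  have hAe_out : ∀ n, A (ev (u n) (-1)) = ((2 + ε : ℝ) : ℂ) • ev (u n) (-1) := by
    intro n
    have h := (hu1 n).1
    unfold ev
    rw [map_smul, hA_out (zt (u n) (-1)) (by rw [zt_im]; linarith) (by rw [zt_re]; linarith),
      smul_comm]
  have hAe_in : ∀ c' : ℝ, (c' = 1 ∨ c' = 2) → ∀ n,
      A (ev (u n) c') = ((ε : ℝ) : ℂ) • ev (u n) c' := by
    intro c' hc' n
    have h := (hu1 n).1
    have h' := (hu1 n).2
    unfold ev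
    rw [map_smul, hA_in (zt (u n) c') ?_ ?_ ?_, smul_comm]
    · rw [zt_im]; rcases hc' with rfl | rfl <;> linarith
    · rw [zt_re]; rcases hc' with rfl | rfl <;> linarith
    · rw [zt_im, zt_re]; rcases hc' with rfl | rfl <;> linarith
  have hBin : ∀ (κ : ℂ) (c : ℝ) (n : ℕ), A (ev (u n) c) = κ • ev (u n) c →
      B (ev (u n) c) =ᵐ[volume] fun s => θ s * (κ * ev (u n) c s) := by
    intro κ c n h
    have h1 := hB (ev (u n) c)
    rw [h] at h1
    filter_upwards [h1, Lp.coeFn_smul κ (ev (u n) c)] with s e1 e2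
    rw [e1, e2, Pi.smul_apply, smul_eq_mul]
  have hg1 : Good (-1) := Or.inl rfl
  have hlimQ : ∀ c c' : ℝ, Good c → Good c' → Tendsto (fun n => Qf θ (u n) c c') atTop
      (𝓝 (Th θp θm c c')) := by
    intro c c' hc hc'
    exact (Q_lim hθm' hC hp hlm hc hc').comp hulim
  obtain ⟨T, hT, hTre⟩ := strong_re hSE
  refine hinge (θp := θp) (θm := θm) hε hε' (by positivity) ?_
  intro c' hc' μ
  have hg : Good c' := by
    rcases hc' with h | h
    · exact Or.inr (Or.inl h)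
    · exact Or.inr (Or.inr h)
  set f : ℕ → Lp ℂ 2 (volume : Measure (AddCircle (1:ℝ))) :=
    fun n => ev (u n) (-1) + μ • ev (u n) c' with hf
  have hfB : ∀ n, inner ℂ (f n) (B (f n)) =
      ((2 + ε : ℝ) : ℂ) * Qf θ (u n) (-1) (-1) + μ * ((ε : ℝ) : ℂ) * Qf θ (u n) c' (-1) +
        conj μ * ((2 + ε : ℝ) : ℂ) * Qf θ (u n) (-1) c' +
        (conj μ * μ) * ((ε : ℝ) : ℂ) * Qf θ (u n) c' c' := by
    intro n
    have k1 := hBin _ _ n (hAe_out n)
    have k2 := hBin _ _ n (hAe_in c' hc' n)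
    have j1 := inner_ev hg1 hg1 (hu1 n).1 (hu1 n).2 k1
    have j2 := inner_ev hg1 hg (hu1 n).1 (hu1 n).2 k1
    have j3 := inner_ev hg hg1 (hu1 n).1 (hu1 n).2 k2
    have j4 := inner_ev hg hg (hu1 n).1 (hu1 n).2 k2
    simp only [hf]
    rw [map_add, map_smul, inner_add_left, inner_add_right, inner_add_right, inner_smul_left,
      inner_smul_left, inner_smul_right, inner_smul_right, j1, j2, j3, j4]
    ring
  have hlim : Tendsto (fun n => (inner ℂ (f n) (B (f n))).re) atTop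
      (𝓝 (((2 + ε : ℝ) : ℂ) * Th θp θm (-1) (-1) + μ * ((ε : ℝ) : ℂ) * Th θp θm c' (-1) +
        conj μ * ((2 + ε : ℝ) : ℂ) * Th θp θm (-1) c' +
        (conj μ * μ) * ((ε : ℝ) : ℂ) * Th θp θm c' c').re) := by
    apply (Complex.continuous_re.tendsto _).comp
    simp_rw [hfB]
    exact ((((hlimQ _ _ hg1 hg1).const_mul _).add ((hlimQ _ _ hg hg1).const_mul _)).add
      ((hlimQ _ _ hg1 hg).const_mul _)).add ((hlimQ _ _ hg hg).const_mul _)
  obtain ⟨M1, hM1⟩ := ev_norm_bdd hg1 hu1 hulim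
  obtain ⟨M2, hM2⟩ := ev_norm_bdd hg hu1 hulim
  have hfb : ∀ n, ‖f n‖ ≤ M1 + ‖μ‖ * M2 := by
    intro n
    calc ‖f n‖ ≤ ‖ev (u n) (-1)‖ + ‖μ • ev (u n) c'‖ := norm_add_le _ _
      _ ≤ M1 + ‖μ‖ * M2 := by
        rw [norm_smul]
        gcongr
        · exact hM1 n
        · exact hM2 n
  have hfw : ∀ y, Tendsto (fun n => inner ℂ y (f n)) atTop (𝓝 0) := by
    intro y
    have h1 := ev_weak_null hg1 hu1 hulim y
    have h2 := (ev_weak_null hg hu1 hulim y).const_mul μ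
    have h3 := h1.add h2
    simp only [mul_zero, add_zero] at h3
    refine h3.congr fun n => ?_
    simp only [hf]
    rw [inner_add_right, inner_smul_right]
  have hTlim := compact_weak_null hT hfb hfw
  have hTlim' : Tendsto (fun n => (inner ℂ (T (f n)) (f n)).re) atTop (𝓝 0) := by
    have := (Complex.continuous_re.tendsto _).comp hTlim
    rw [Complex.zero_re] at this
    exact this
  exact le_of_tendsto_of_tendsto' hTlim' hlim fun n => hTre (f n)

end Pool.Agent.MP559
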